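import Pool.Agent.H.MP_035081_al.C

set_option autoImplicit false

namespace Pool.Agent.Results.MP_035081_al.SatLocal
open Pool.Agent.H.MP_035081_al

theorem result : ∀ F : Cls, Fit F → NE F → (∀ (G : Type) [Group G], F G → Group.IsSolvable G) →
    Saturated F → Local F :=
  fun _ => main

end Pool.Agent.Results.MP_035081_al.SatLocal
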